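import Mathlib

set_option autoImplicit false

namespace Pool.Agent.Results.MP_13df43_gt.NoStationary

open Set Topology Filter Cardinal

section Free

variable {A : Type}

/-- In a set of more than `ℵ₁` points some point is avoided by more than `ℵ₁` of the countable
sets `D a`. -/
theorem step (D : A → Set A) (hD : ∀ a, (D a).Countable) (R : Set A) (hR : ℵ₁ < #R) :
    ∃ x ∈ R, ℵ₁ < #({a ∈ R | x ∉ D a} : Set A) := by
  by_contra hcon
  push Not at hcon
  obtain ⟨T, hTR, hT⟩ := le_mk_iff_exists_subset.1 hR.le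
  have h1 : #(⋃ x : T, {a ∈ R | x.1 ∉ D a} : Set A) ≤ ℵ₁ := by
    refine (mk_iUnion_le _).trans ?_
    rw [hT]
    refine (mul_le_max _ _).trans ?_
    refine max_le (max_le le_rfl (ciSup_le' fun x => hcon x.1 (hTR x.2))) (aleph0_le_aleph 1)
  obtain ⟨a, haR, ha⟩ : ∃ a ∈ R, a ∉ (⋃ x : T, {a ∈ R | x.1 ∉ D a} : Set A) := by
    by_contra h
    push Not at h
    exact absurd (lt_of_lt_of_le hR (mk_le_mk_of_subset (t := (⋃ x : T, {a ∈ R | x.1 ∉ D a} : Set A))
      fun a ha => h a ha)) (not_lt.2 h1)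
  have hTD : T ⊆ D a := by
    intro x hx
    by_contra hxD
    exact ha (mem_iUnion.2 ⟨⟨x, hx⟩, haR, hxD⟩)
  have h2 : #T ≤ ℵ₀ := ((hD a).mono hTD).le_aleph0
  rw [hT] at h2
  exact absurd h2 (not_le.2 aleph0_lt_aleph_one)

theorem step' (D : A → Set A) (hD : ∀ a, (D a).Countable) (R : Set A) (hR : ℵ₁ < #R) :
    ∃ x ∈ R, ℵ₁ < #({a ∈ R | x ∉ D a} \ D x : Set A) := by
  obtain ⟨x, hx, h⟩ := step D hD R hR
  refine ⟨x, hx, ?_⟩
  by_contra hcon
  push Not at hcon
  have h1 : #({a ∈ R | x ∉ D a} : Set A) ≤ #({a ∈ R | x ∉ D a} \ D x : Set A) + #(D x) := by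
    refine (mk_le_mk_of_subset ?_).trans (mk_union_le _ _)
    intro a ha
    by_cases h : a ∈ D x
    · exact Or.inr h
    · exact Or.inl ⟨ha, h⟩
  have h2 : #({a ∈ R | x ∉ D a} \ D x : Set A) + #(D x) ≤ ℵ₁ := by
    refine (add_le_add hcon ((hD x).le_aleph0.trans (aleph0_le_aleph 1))).trans ?_
    rw [add_eq_self (aleph0_le_aleph 1)]
  exact absurd (lt_of_lt_of_le h (h1.trans h2)) (lt_irrefl _)

/-- An infinite free sequence for a set mapping with countable values. -/
theorem exists_free (hA : ℵ₁ < #A) (D : A → Set A) (hD : ∀ a, (D a).Countable) :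
    ∃ a : ℕ → A, ∀ m n, m ≠ n → a m ∉ D (a n) := by
  classical
  have hne : Nonempty A := mk_ne_zero_iff.1 fun h => by
    rw [h] at hA
    exact absurd hA (not_lt.2 zero_le)
  choose! f hf1 hf2 using step' D hD
  let R : ℕ → Set A := fun n => Nat.rec (Set.univ : Set A) (fun _ R => {a ∈ R | f R ∉ D a} \ D (f R)) n
  have hR0 : R 0 = Set.univ := rfl
  have hRs : ∀ n, R (n + 1) = {a ∈ R n | f (R n) ∉ D a} \ D (f (R n)) := fun n => rfl
  have hR : ∀ n, ℵ₁ < #↥(R n) := by
    intro n
    induction n with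
    | zero => rw [hR0, mk_univ]; exact hA
    | succ n ih => rw [hRs]; exact hf2 _ ih
  have hanti : ∀ n, R (n + 1) ⊆ R n := by
    intro n a ha
    rw [hRs] at ha
    exact ha.1.1
  have hanti' : Antitone R := antitone_nat_of_succ_le hanti
  have hmem : ∀ n, f (R n) ∈ R n := fun n => hf1 _ (hR n)
  have key : ∀ m n, m < n → f (R n) ∈ R (m + 1) := fun m n h => hanti' h (hmem n)
  refine ⟨fun n => f (R n), fun m n hmn => ?_⟩
  rcases lt_or_gt_of_ne hmn with h | h
  · have := key m n h
    rw [hRs] at this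
    exact this.1.2
  · have := key n m h
    rw [hRs] at this
    exact this.2

end Free

variable (A : Type)

/-- The functions `x` on the power set of `A` with values in `ℤ/2` such that for some countable
`D ⊆ A`, `x E` depends only on `E ∩ D`. -/
def GG : AddSubgroup (Set A → ZMod 2) where
  carrier := {x | ∃ D : Set A, D.Countable ∧ ∀ E, x E = x (E ∩ D)}
  zero_mem' := ⟨∅, countable_empty, fun _ => rfl⟩
  add_mem' := by
    rintro x y ⟨D, hD, hx⟩ ⟨D', hD', hy⟩
    refine ⟨D ∪ D', hD.union hD', fun E => ?_⟩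
    have h1 : x (E ∩ (D ∪ D')) = x (E ∩ D) := by
      rw [hx (E ∩ (D ∪ D')), inter_assoc, inter_eq_right.2 subset_union_left]
    have h2 : y (E ∩ (D ∪ D')) = y (E ∩ D') := by
      rw [hy (E ∩ (D ∪ D')), inter_assoc, inter_eq_right.2 subset_union_right]
    rw [Pi.add_apply, Pi.add_apply, h1, h2, ← hx, ← hy]
  neg_mem' := by
    rintro x ⟨D, hD, hx⟩
    refine ⟨D, hD, fun E => ?_⟩
    rw [Pi.neg_apply, Pi.neg_apply, ← hx]

instance : TopologicalSpace (ZMod 2) := ⊥
instance : DiscreteTopology (ZMod 2) := ⟨rfl⟩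

theorem compact_closure (H : AddSubgroup (GG A)) (hH : (H : Set (GG A)).Countable) :
    IsCompact (closure (H : Set (GG A))) := by
  classical
  choose D hD hDx using fun x : GG A => x.2
  let D' : Set A := ⋃ h ∈ (H : Set (GG A)), D h
  have hD' : D'.Countable := hH.biUnion fun h _ => hD h
  let K : Set (Set A → ZMod 2) := {x | ∀ E, x E = x (E ∩ D')}
  have hKc : IsClosed K := by
    have : K = ⋂ E, {x : Set A → ZMod 2 | x E = x (E ∩ D')} := by
      ext x
      simp only [K, mem_iInter]
      rfl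
    rw [this]
    exact isClosed_iInter fun E => isClosed_eq (continuous_apply _) (continuous_apply _)
  have hKcomp : IsCompact K := hKc.isCompact
  have hKG : K ⊆ Set.range (Subtype.val : GG A → Set A → ZMod 2) := by
    intro x hx
    exact ⟨⟨x, D', hD', hx⟩, rfl⟩
  have hK' : IsCompact (Subtype.val ⁻¹' K : Set (GG A)) :=
    Topology.IsInducing.subtypeVal.isCompact_preimage' hKcomp hKG
  refine hK'.of_isClosed_subset isClosed_closure (closure_minimal ?_ (hKc.preimage
    continuous_subtype_val))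
  intro h hh E
  have hsub : D h ⊆ D' := subset_iUnion₂_of_subset h hh subset_rfl
  show h.1 E = h.1 (E ∩ D')
  rw [hDx h E, hDx h (E ∩ D'), inter_assoc, inter_eq_right.2 hsub]

/-- There is a Hausdorff (abelian) topological group in which the closure of every countable
subgroup is compact, and such that no stationary strategy of Player P in `Ssp(G)` is winning. -/
theorem result : ∃ (G : Type) (_ : AddCommGroup G) (_ : TopologicalSpace G),
    IsTopologicalAddGroup G ∧ T2Space G ∧
    (∀ H : AddSubgroup G, (H : Set G).Countable → IsCompact (closure (H : Set G))) ∧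
    ∀ s : Set G → G, (∀ U, IsOpen U → U.Nonempty → s U ∈ U) →
      ∃ U : ℕ → Set G, (∀ n, IsOpen (U n) ∧ (U n).Nonempty) ∧
        ∀ φ : ℕ → ℕ, StrictMono φ → ∀ x : G,
          ¬ Tendsto (fun k => s (U (φ k))) atTop (𝓝 x) := by
  classical
  let A : Type := (ℵ_ 2).out
  have hA : ℵ₁ < #A := by
    rw [mk_out]
    exact aleph_lt_aleph.2 (by norm_num)
  refine ⟨GG A, inferInstance, inferInstance, inferInstance, inferInstance, compact_closure A, ?_⟩
  intro s hs
  -- the open sets
  let V : A → Set (GG A) := fun a => {x | x.1 {a} = 1 ∧ x.1 ∅ = 0}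
  have hVo : ∀ a, IsOpen (V a) := by
    intro a
    have hc : ∀ E : Set A, Continuous fun x : GG A => x.1 E := fun E =>
      (continuous_apply E).comp continuous_subtype_val
    exact ((isOpen_discrete ({1} : Set (ZMod 2))).preimage (hc {a})).inter
      ((isOpen_discrete ({0} : Set (ZMod 2))).preimage (hc ∅))
  have hVne : ∀ a, (V a).Nonempty := by
    intro a
    refine ⟨⟨fun E => if a ∈ E then 1 else 0, {a}, countable_singleton a, fun E => ?_⟩, ?_, ?_⟩
    · simp
    · simp
    · simp
  have hsV : ∀ a, (s (V a)).1 {a} = 1 ∧ (s (V a)).1 ∅ = 0 := fun a => hs _ (hVo a) (hVne a)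
  choose D hD hDx using fun a : A => (s (V a)).2
  have haD : ∀ a, a ∈ D a := by
    intro a
    by_contra h
    have h1 := hDx a {a}
    rw [(hsV a).1, singleton_inter_eq_empty.2 h, (hsV a).2] at h1
    exact one_ne_zero h1
  obtain ⟨a, ha⟩ := exists_free hA D hD
  have hinj : ∀ m n, a m = a n → m = n := by
    intro m n h
    by_contra hmn
    have := ha m n hmn
    rw [h] at this
    exact this (haD _)
  refine ⟨fun n => V (a n), fun n => ⟨hVo _, hVne _⟩, ?_⟩
  intro φ hφ x hx
  let E : Set A := {b | ∃ k, Even k ∧ b = a (φ k)}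
  have hE : ∀ k, (s (V (a (φ k)))).1 E = if Even k then 1 else 0 := by
    intro k
    rw [hDx (a (φ k)) E]
    split_ifs with hk
    · have : E ∩ D (a (φ k)) = {a (φ k)} := by
        ext b
        simp only [mem_inter_iff, mem_singleton_iff]
        constructor
        · rintro ⟨⟨j, _, rfl⟩, hb⟩
          by_contra hne
          have : φ j ≠ φ k := fun h => hne (by rw [h])
          exact ha _ _ this hb
        · rintro rfl
          exact ⟨⟨k, hk, rfl⟩, haD _⟩
      rw [this]
      exact (hsV _).1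
    · have : E ∩ D (a (φ k)) = ∅ := by
        rw [eq_empty_iff_forall_notMem]
        rintro b ⟨⟨j, hj, rfl⟩, hb⟩
        have hjk : j ≠ k := by
          rintro rfl
          exact hk hj
        have : φ j ≠ φ k := fun h => hjk (hφ.injective h)
        exact ha _ _ this hb
      rw [this]
      exact (hsV _).2
  have hconv : Tendsto (fun k => (s (V (a (φ k)))).1 E) atTop (𝓝 (x.1 E)) :=
    (((continuous_apply E).comp continuous_subtype_val).tendsto x).comp hx
  have hev : ∀ᶠ k in atTop, (s (V (a (φ k)))).1 E = x.1 E :=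
    hconv.eventually (isOpen_discrete {x.1 E} |>.mem_nhds rfl)
  obtain ⟨N, hN⟩ := eventually_atTop.1 hev
  have h1 := hN (2 * N) (by omega)
  have h2 := hN (2 * N + 1) (by omega)
  rw [hE, if_pos (even_two_mul N)] at h1
  rw [hE, if_neg (by simp)] at h2
  rw [← h2] at h1
  exact one_ne_zero h1

end Pool.Agent.Results.MP_13df43_gt.NoStationary
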